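import Pool.Agent.Lib.MP_c3d375_an.Neg.H99.LowA

/-!
# Two-dimensional members of `W(C₁, C₂)`
-/

open Complex Metric Set Filter Topology Polynomial

namespace Pool.Agent.Lib.MP_c3d375_an.Neg.H99

/-- the functional calculus exists if `C₁` is compact and convex -/
theorem exists_calc_compact {H : Type*} [NormedAddCommGroup H] [InnerProductSpace ℂ H]
    [CompleteSpace H] [Nontrivial H] {C₁ V : Set ℂ} (hC : IsCompact C₁) (hconv : Convex ℝ C₁)
    (T : H →L[ℂ] H) (hT : ∀ x : H, ‖x‖ = 1 → inner ℂ x (T x) ∈ C₁) (hV : IsOpen V)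
    (hsub : C₁ ⊆ V) {f : ℂ → ℂ} (hf : DifferentiableOn ℂ f V) :
    ∃ (p : ℕ → Polynomial ℂ) (U : Set ℂ) (A : H →L[ℂ] H), IsOpen U ∧ C₁ ⊆ U ∧
      spectrum ℂ T ⊆ U ∧
      TendstoUniformlyOn (fun n z => (p n).eval z) f Filter.atTop U ∧
      Filter.Tendsto (fun n => Polynomial.aeval T (p n)) Filter.atTop (nhds A) := by
  obtain ⟨δ, hδ, hsub'⟩ := hC.exists_cthickening_subset_open hV hsub
  have hPA : PA (cthickening δ C₁) f :=
    runge hC.cthickening (hconv.cthickening δ) hV hsub' hf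
  obtain ⟨p, hp⟩ := hPA.exists_seq
  have hU : IsOpen (thickening δ C₁) := isOpen_thickening
  have hCU : C₁ ⊆ thickening δ C₁ := self_subset_thickening hδ _
  have hTU : spectrum ℂ T ⊆ thickening δ C₁ :=
    (spectrum_subset_of_numRange hC.isClosed hconv hT).trans hCU
  have hp' : TendstoUniformlyOn (fun n z => (p n).eval z) f atTop (thickening δ C₁) :=
    hp.mono (thickening_subset_cthickening δ C₁)
  obtain ⟨C, hC0, hCb⟩ := exists_bound_open hU hTU
  obtain ⟨A, hA⟩ := exists_aeval_lim hC0 hCb hp'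
  exact ⟨p, thickening δ C₁, A, hU, hCU, hTU, hp', hA⟩

/-- Jordan blocks: a whole disc of values -/
theorem jordan_mem_W {C₁ C₂ V : Set ℂ} (hC : IsCompact C₁) (hconv : Convex ℝ C₁) {c : ℂ}
    {r : ℝ} (hr : 0 < r) (hball : closedBall c r ⊆ C₁) (hV : IsOpen V)
    (hsub : C₁ ⊆ V) {f : ℂ → ℂ} (hf : DifferentiableOn ℂ f V)
    (hfC : f '' C₁ ⊆ C₂) {ζ : ℂ} (hζ : ‖ζ‖ ≤ 1) :
    f c + r * deriv f c * ζ ∈ W C₁ C₂ := by
  obtain ⟨x, hx, hxζ⟩ := exists_unit_vector hζ
  have hT : ∀ y : E2, ‖y‖ = 1 →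
      inner ℂ y ((c • (1 : E2 →L[ℂ] E2) + (r : ℂ) • J) y) ∈ C₁ := by
    intro y hy
    apply hball
    rw [add_apply, inner_add_right, smul_apply, smul_apply, inner_smul_right, inner_smul_right,
      inner_one_apply, inner_J, hy, mem_closedBall, dist_eq_norm]
    have h1 := norm_sq_E2 y
    rw [hy] at h1
    have h2 : ‖(2 * ((starRingEnd ℂ) (y 0) * y 1) : ℂ)‖ ≤ 1 := by
      rw [norm_mul, norm_mul, RCLike.norm_conj, Complex.norm_ofNat]
      nlinarith [sq_nonneg (‖y 0‖ - ‖y 1‖)]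
    have h3 : c * ((1 ^ 2 : ℝ) : ℂ) + r * (2 * ((starRingEnd ℂ) (y 0) * y 1)) - c =
        r * (2 * ((starRingEnd ℂ) (y 0) * y 1)) := by
      push_cast; ring
    rw [h3, norm_mul, Complex.norm_real, Real.norm_eq_abs, abs_of_pos hr]
    nlinarith
  obtain ⟨p, U, A, hU, hCU, hTU, hp, hA⟩ := exists_calc_compact hC hconv _ hT hV hsub hf
  refine ⟨E2, inferInstance, inferInstance, inferInstance, c • 1 + (r : ℂ) • J, f, A, V, hT, hV,
    hsub, hf, hfC, ⟨p, U, hU, hTU, hp, hA⟩, x, hx, ?_⟩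
  have hcU : c ∈ U := hCU (hball (mem_closedBall_self hr.le))
  have h1 : Tendsto (fun n => (p n).eval c) atTop (𝓝 (f c)) := hp.tendsto_at hcU
  have h2 : Tendsto (fun n => (derivative (p n)).eval c) atTop (𝓝 (deriv f c)) := by
    have := hp.tendstoLocallyUniformlyOn.deriv
      (Eventually.of_forall fun n => (p n).differentiable.differentiableOn) hU
    have h3 := (this.tendsto_at hcU)
    refine h3.congr fun n => ?_
    simp only [Function.comp, Polynomial.deriv]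
  have h3 : Tendsto (fun n => inner ℂ x ((aeval (c • (1 : E2 →L[ℂ] E2) + (r : ℂ) • J) (p n)) x))
      atTop (𝓝 (inner ℂ x (A x))) := by
    have h4 : Continuous fun B : E2 →L[ℂ] E2 => inner ℂ x (B x) := by fun_prop
    exact (h4.tendsto A).comp hA
  refine tendsto_nhds_unique h3 ?_
  have h5 : (fun n => inner ℂ x ((aeval (c • (1 : E2 →L[ℂ] E2) + (r : ℂ) • J) (p n)) x)) =
      fun n => (p n).eval c + r * (derivative (p n)).eval c * ζ := by
    funext n
    rw [aeval_jordan, add_apply, inner_add_right, smul_apply, smul_apply, inner_smul_right,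
      inner_smul_right, inner_one_apply, hxζ, hx]
    simp
  rw [h5]
  exact h1.add ((h2.const_mul _).mul_const _)

/-- polynomials in an operator with quadratic minimal polynomial -/
theorem aeval_two {𝔸 : Type*} [Ring 𝔸] [Algebra ℂ 𝔸] {T : 𝔸} {l₁ l₂ : ℂ}
    (hT : T * T = (l₁ + l₂) • T - (l₁ * l₂) • 1) (q : ℂ[X]) :
    (l₁ - l₂) • aeval T q = (q.eval l₁ - q.eval l₂) • T +
      (l₁ * q.eval l₂ - l₂ * q.eval l₁) • (1 : 𝔸) := by
  induction q using Polynomial.induction_on' with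
  | add p q hp hq =>
    rw [map_add, smul_add, hp, hq, eval_add, eval_add]
    module
  | monomial n b =>
    have key : ∀ n : ℕ, (l₁ - l₂) • T ^ n = (l₁ ^ n - l₂ ^ n) • T +
        (l₁ * l₂ ^ n - l₂ * l₁ ^ n) • (1 : 𝔸) := by
      intro n
      induction n with
      | zero => simp
      | succ n ih =>
        rw [pow_succ, ← smul_mul_assoc, ih, add_mul, smul_mul_assoc, hT, smul_mul_assoc, one_mul]
        module
    rw [aeval_monomial, eval_monomial, eval_monomial, ← Algebra.smul_def, smul_comm, key]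
    module

/-- 2 × 2 matrices with two different eigenvalues -/
theorem two_mem_W {H : Type} [NormedAddCommGroup H] [InnerProductSpace ℂ H]
    [CompleteSpace H] [Nontrivial H] {C₁ C₂ V : Set ℂ} (hC : IsCompact C₁) (hconv : Convex ℝ C₁)
    (T : H →L[ℂ] H) (hT : ∀ x : H, ‖x‖ = 1 → inner ℂ x (T x) ∈ C₁) {l₁ l₂ : ℂ}
    (hT2 : T * T = (l₁ + l₂) • T - (l₁ * l₂) • 1) (hl : l₁ ≠ l₂) (hl₁ : l₁ ∈ C₁) (hl₂ : l₂ ∈ C₁)
    (hV : IsOpen V) (hsub : C₁ ⊆ V) {f : ℂ → ℂ} (hf : DifferentiableOn ℂ f V)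
    (hfC : f '' C₁ ⊆ C₂) {x : H} (hx : ‖x‖ = 1) :
    ((f l₁ - f l₂) * inner ℂ x (T x) + (l₁ * f l₂ - l₂ * f l₁)) / (l₁ - l₂) ∈ W C₁ C₂ := by
  obtain ⟨p, U, A, hU, hCU, hTU, hp, hA⟩ := exists_calc_compact hC hconv _ hT hV hsub hf
  refine ⟨H, inferInstance, inferInstance, inferInstance, T, f, A, V, hT, hV,
    hsub, hf, hfC, ⟨p, U, hU, hTU, hp, hA⟩, x, hx, ?_⟩
  have h1 : Tendsto (fun n => (p n).eval l₁) atTop (𝓝 (f l₁)) := hp.tendsto_at (hCU hl₁)
  have h2 : Tendsto (fun n => (p n).eval l₂) atTop (𝓝 (f l₂)) := hp.tendsto_at (hCU hl₂)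
  have hl0 : l₁ - l₂ ≠ 0 := sub_ne_zero.2 hl
  have h3 : Tendsto (fun n => inner ℂ x ((aeval T (p n)) x))
      atTop (𝓝 (inner ℂ x (A x))) := by
    have h4 : Continuous fun B : H →L[ℂ] H => inner ℂ x (B x) := by fun_prop
    exact (h4.tendsto A).comp hA
  refine tendsto_nhds_unique h3 ?_
  have h5 : (fun n => inner ℂ x ((aeval T (p n)) x)) =
      fun n => (((p n).eval l₁ - (p n).eval l₂) * inner ℂ x (T x) +
        (l₁ * (p n).eval l₂ - l₂ * (p n).eval l₁)) / (l₁ - l₂) := by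
    funext n
    rw [eq_div_iff hl0]
    have h6 := congrArg (fun B : H →L[ℂ] H => inner ℂ x (B x)) (aeval_two hT2 (p n))
    simp only [add_apply, inner_add_right, smul_apply, inner_smul_right, inner_one_apply, hx] at h6
    rw [mul_comm, h6]
    simp
  rw [h5]
  exact (((h1.sub h2).mul_const _).add ((h2.const_mul _).sub (h1.const_mul _))).div_const _

end Pool.Agent.Lib.MP_c3d375_an.Neg.H99
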