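import Pool.Agent.Lib.MP_c3d375_an.Neg.Iface
import Pool.Agent.Lib.MP_c3d375_an.Neg.H19.GC1

/-!
# CAL: compatibility of the calculus with the polynomial calculus of `T`
-/

open Complex Metric Set Filter Topology ComplexConjugate Pool.Agent.Lib.MP_c3d375_an

namespace C3N.H99

open Pool.Agent.Lib.MP_c3d375_an.Neg.H19 (Par)

theorem fn_aeval {r : ℝ} (φ : Hol r) (p : Polynomial ℂ) {z : ℂ} (h : z ∈ ball (0 : ℂ) r) :
    fn (Polynomial.aeval φ p) z = p.eval (fn φ z) := by
  induction p using Polynomial.induction_on' with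
  | add p q hp hq => rw [map_add, fn_add, hp, hq, Polynomial.eval_add]
  | monomial n b =>
    rw [Polynomial.aeval_monomial, fn_mul, fn_algebraMap _ h, fn_pow _ _ h,
      Polynomial.eval_monomial]

theorem chi_diff {a e r : ℝ} (ha : 1 / 2 ≤ a) (ha1 : a < 1) (hr : r ≤ (1 + a) / (2 * a)) :
    DifferentiableOn ℂ (chi a e) (ball 0 r) := by
  have hne : ∀ z ∈ ball (0 : ℂ) r, (1 : ℂ) - a * z ≠ 0 := by
    intro z hz h0
    rw [mem_ball_zero_iff] at hz
    have h1 : (a : ℂ) * z = 1 := by linear_combination -h0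
    have h2 : a * ‖z‖ = 1 := by
      have := congrArg norm h1
      rwa [norm_mul, Complex.norm_real, Real.norm_eq_abs, abs_of_pos (by linarith), norm_one] at this
    have h3 : a * ‖z‖ < a * ((1 + a) / (2 * a)) := by
      apply mul_lt_mul_of_pos_left (hz.trans_le hr) (by linarith)
    have h4 : a * ((1 + a) / (2 * a)) = (1 + a) / 2 := by
      field_simp
    linarith
  intro z hz
  unfold chi
  refine DifferentiableAt.differentiableWithinAt ?_
  refine differentiableAt_id.add ?_
  refine (differentiableAt_const _).div ?_ (hne z hz)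
  fun_prop

theorem cal_st : CALStatement := by
  intro a ha ha1
  refine ⟨(1 - a) ^ 3 / 2, C3N.H19.e0_pos ha1, fun e he he1 => ?_⟩
  have hP := C3N.H19.par_of ha ha1 he he1
  intro H _ _ _ T hσ r hr hr1 Φ hbdd hΦ f V U A hV hsub hf hU hσU hA φ hφ
  obtain ⟨C, hC⟩ := hbdd
  have hK : IsCompact (C1 a e) := hP.isCompact_C1
  obtain ⟨δ, hδ, hsub'⟩ := hK.exists_cthickening_subset_open hV hsub
  have hPA : PA (cthickening δ (C1 a e)) f :=
    runge hK.cthickening (hP.convex_C1.cthickening δ) hV hsub' hf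
  obtain ⟨p, hp⟩ := hPA.exists_seq
  have hN : IsOpen (thickening δ (C1 a e)) := isOpen_thickening
  have hCN : C1 a e ⊆ thickening δ (C1 a e) := self_subset_thickening hδ _
  have hTN : spectrum ℂ T ⊆ thickening δ (C1 a e) := (hσ.trans interior_subset).trans hCN
  have hp' : TendstoUniformlyOn (fun n z => (p n).eval z) f atTop (thickening δ (C1 a e)) :=
    hp.mono (thickening_subset_cthickening δ (C1 a e))
  have hlim : Tendsto (fun n => Polynomial.aeval T (p n)) atTop (𝓝 (Φ φ)) := by
    rw [Metric.tendstoUniformlyOn_iff] at hp'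
    rw [Metric.tendsto_atTop]
    intro ε hε
    obtain ⟨N, hN⟩ := eventually_atTop.1 (hp' (ε / (|C| + 1)) (by positivity))
    refine ⟨N, fun n hn => ?_⟩
    have h1 : Polynomial.aeval T (p n) = Φ (Polynomial.aeval (hol r (chi a e)) (p n)) := by
      rw [← Polynomial.aeval_algHom_apply, hΦ]
    rw [dist_eq_norm, h1, ← map_sub]
    have h2 : ‖Φ (Polynomial.aeval (hol r (chi a e)) (p n) - φ)‖ ≤ C * (ε / (|C| + 1)) := by
      apply hC
      intro z hz
      have hzr : z ∈ ball (0 : ℂ) r := by
        rw [mem_closedBall_zero_iff] at hz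
        rw [mem_ball_zero_iff]
        linarith
      rw [fn_sub, fn_aeval _ _ hzr, hφ z hz, fn_hol (chi_diff ha ha1 hr1) hzr, norm_sub_rev]
      have h3 := hN n hn (chi a e z) (hCN ⟨z, hz, rfl⟩)
      rw [dist_eq_norm] at h3
      exact h3.le
    refine h2.trans_lt ?_
    calc C * (ε / (|C| + 1)) ≤ |C| * (ε / (|C| + 1)) := by
          apply mul_le_mul_of_nonneg_right (le_abs_self C) (by positivity)
      _ < ε := by
          rw [mul_div_assoc', div_lt_iff₀ (by positivity)]
          nlinarith [abs_nonneg C]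
  exact Calc.unique ⟨p, hp', hlim⟩ hA hN hU hTN hσU (fun _ _ => rfl)

end C3N.H99

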