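import Pool.Agent.Lib.MP_c3d375_an.Spec
import Pool.Agent.Lib.MP_c3d375_an.Lower2

/-!
# The map `χ(z) = z + (e/a)/(1-az)`, its inverse `g`, and the set `C₂`
-/

open Complex Metric Set Filter Topology Polynomial

namespace Pool.Agent.Lib.MP_c3d375_an.Neg.H99

/-- `χ(z) = z + (e/a)/(1-az)` -/
noncomputable def lchi (a e : ℝ) (z : ℂ) : ℂ := z + (e / a : ℂ) / (1 - a * z)

/-- the inverse of `χ` on the half plane `Re w < 1/a` -/
noncomputable def lg (a e : ℝ) (w : ℂ) : ℂ :=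
  ((1 + a * w) - sq ((1 - a * w) ^ 2 + 4 * e)) / (2 * a)

/-- the second set -/
def lC2 : Set ℂ := {z : ℂ | 0 ≤ z.re ∧ z.re ≤ 1 / 2 ∧ |z.im| ≤ z.re - z.re ^ 3}

theorem lsq_re_pos {h : ℂ} (hh : h ∈ slitPlane) : 0 < (sq h).re := by
  rw [sq, Complex.exp_re]
  refine mul_pos (Real.exp_pos _) ?_
  have h1 : (log h / 2).im = Complex.arg h / 2 := by
    rw [show (2 : ℂ) = ((2 : ℝ) : ℂ) by norm_num, Complex.div_ofReal_im, Complex.log_im]
  rw [h1]
  have h2 : Complex.arg h < Real.pi := lt_of_le_of_ne (Complex.arg_le_pi h)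
    (Complex.mem_slitPlane_iff_arg.1 hh).1
  have h3 := Complex.neg_pi_lt_arg h
  exact Real.cos_pos_of_mem_Ioo ⟨by linarith, by linarith⟩

theorem lsq_differentiableAt {h : ℂ} (hh : h ∈ slitPlane) : DifferentiableAt ℂ sq h := by
  have := ((Complex.hasDerivAt_log hh).div_const 2).cexp
  exact this.differentiableAt

/-- the square root is the only one in the right half plane -/
theorem lsq_eq {h s : ℂ} (hs : 0 < s.re) (hsh : s ^ 2 = h) (hh : h ∈ slitPlane) : sq h = s := by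
  have h0 : h ≠ 0 := slitPlane_ne_zero hh
  have h1 := sq_sq h0
  have h2 := lsq_re_pos hh
  have h3 : (sq h - s) * (sq h + s) = 0 := by
    have : (sq h - s) * (sq h + s) = sq h ^ 2 - s ^ 2 := by ring
    rw [this, h1, hsh, sub_self]
  rcases mul_eq_zero.1 h3 with h | h
  · exact sub_eq_zero.1 h
  · exfalso
    have := congrArg Complex.re h
    rw [Complex.add_re, Complex.zero_re] at this
    linarith

theorem lsq_mem_slit {b : ℂ} (hb : 0 < b.re) {e : ℝ} (he : 0 ≤ e) :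
    b ^ 2 + 4 * e ∈ slitPlane := by
  rw [Complex.mem_slitPlane_iff]
  by_cases h : b.im = 0
  · left
    rw [pow_two, Complex.add_re, Complex.mul_re, h]
    have : (4 * (e : ℂ)).re = 4 * e := by simp
    rw [this]
    nlinarith [mul_pos hb hb]
  · right
    rw [pow_two, Complex.add_im, Complex.mul_im]
    have : (4 * (e : ℂ)).im = 0 := by simp
    rw [this]
    intro h'
    have : b.re * b.im = 0 := by linarith
    rcases mul_eq_zero.1 this with h1 | h1
    · linarith
    · exact h h1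

section

variable {a e : ℝ}

theorem one_sub_re (z : ℂ) : (1 - a * z).re = 1 - a * z.re := by
  simp

theorem lslit (he : 0 ≤ e) {w : ℂ} (hw : a * w.re < 1) :
    (1 - a * w) ^ 2 + 4 * e ∈ slitPlane :=
  lsq_mem_slit (by rw [one_sub_re]; linarith) he

theorem lg_differentiableAt (he : 0 ≤ e) {w : ℂ} (hw : a * w.re < 1) :
    DifferentiableAt ℂ (lg a e) w := by
  unfold lg
  have h1 : DifferentiableAt ℂ (fun w : ℂ => sq ((1 - a * w) ^ 2 + 4 * e)) w :=
    DifferentiableAt.comp (g := sq) (f := fun w : ℂ => (1 - a * w) ^ 2 + 4 * e) w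
      (lsq_differentiableAt (lslit he hw)) (by fun_prop)
  fun_prop

/-- `χ(g(w)) = w`, and `g(w)` lies in `Re (1 - az) > 0` -/
theorem lchi_lg (ha : 0 < a) (he : 0 ≤ e) {w : ℂ} (hw : a * w.re < 1) :
    0 < (1 - a * lg a e w).re ∧ lchi a e (lg a e w) = w := by
  set R : ℂ := sq ((1 - a * w) ^ 2 + 4 * e) with hR
  have hs := lslit he hw
  have hRre : 0 < R.re := lsq_re_pos hs
  have hR2 : R ^ 2 = (1 - a * w) ^ 2 + 4 * e := sq_sq (slitPlane_ne_zero hs)
  have hac : (a : ℂ) ≠ 0 := by exact_mod_cast ha.ne'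
  have hg : lg a e w = ((1 + a * w) - R) / (2 * a) := rfl
  have hb : 1 - a * lg a e w = ((1 - a * w) + R) / 2 := by
    rw [hg]; field_simp; ring
  have hbre : 0 < (1 - a * lg a e w).re := by
    rw [hb, show (2 : ℂ) = ((2 : ℝ) : ℂ) by norm_num, Complex.div_ofReal_re, Complex.add_re,
      one_sub_re]
    have : 0 < 1 - a * w.re := by linarith
    positivity
  refine ⟨hbre, ?_⟩
  have hb0 : ((1 - a * w) + R) ≠ 0 := by
    intro h
    rw [hb, h] at hbre
    simp at hbre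
  have hkey : (e : ℂ) / (((1 - a * w) + R) / 2) = (R - (1 - a * w)) / 2 := by
    rw [div_eq_iff (div_ne_zero hb0 two_ne_zero)]
    linear_combination (-1 / 4 : ℂ) * hR2
  unfold lchi
  rw [hb, div_right_comm, hkey, hg]
  field_simp
  ring

/-- `Re χ(z) < 1/a` on the closed unit disc -/
theorem lchi_re (ha : 0 < a) (ha1 : a < 1) (he : 0 ≤ e) (hea : e < (1 - a) ^ 2) {z : ℂ}
    (hz : ‖z‖ ≤ 1) : a * (lchi a e z).re < 1 := by
  have hac : (a : ℂ) ≠ 0 := by exact_mod_cast ha.ne'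
  have h1 : 1 - a ≤ ‖1 - a * z‖ := by
    have h2 : ‖(1 : ℂ)‖ - ‖a * z‖ ≤ ‖1 - a * z‖ := norm_sub_norm_le _ _
    rw [norm_one, norm_mul, Complex.norm_real, Real.norm_eq_abs, abs_of_pos ha] at h2
    nlinarith
  have h1a : 0 < 1 - a := by linarith
  have h2 : 0 < ‖1 - a * z‖ := by linarith
  have h3 : a * (lchi a e z).re = a * z.re + (e / (1 - a * z)).re := by
    rw [← Complex.re_ofReal_mul, ← Complex.re_ofReal_mul, ← Complex.add_re]
    congr 1
    unfold lchi
    field_simp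
  have h4 : (e / (1 - a * z) : ℂ).re ≤ e / (1 - a) := by
    refine (Complex.re_le_norm _).trans ?_
    rw [norm_div, Complex.norm_real, Real.norm_eq_abs, abs_of_nonneg he]
    gcongr
  have h5 : e / (1 - a) < 1 - a := by
    rw [div_lt_iff₀ h1a]; nlinarith
  have h6 : z.re ≤ 1 := (Complex.re_le_norm z).trans hz
  rw [h3]
  nlinarith

/-- `g(χ(z)) = z` if `Re (b + e/b) > 0` -/
theorem lg_lchi (ha : 0 < a) (he : 0 ≤ e) {z : ℂ} (hb : 0 < (1 - a * z).re)
    (hw : a * (lchi a e z).re < 1) : lg a e (lchi a e z) = z := by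
  have hac : (a : ℂ) ≠ 0 := by exact_mod_cast ha.ne'
  have hb0 : (1 - a * z) ≠ 0 := by
    intro h; rw [h] at hb; simp at hb
  have h1 : sq ((1 - a * lchi a e z) ^ 2 + 4 * e) = (1 - a * z) + e / (1 - a * z) := by
    refine lsq_eq ?_ ?_ (lslit he hw)
    · rw [Complex.add_re]
      have : 0 ≤ ((e : ℂ) / (1 - a * z)).re := by
        rw [div_eq_mul_inv, Complex.re_ofReal_mul, Complex.inv_re]
        exact mul_nonneg he (div_nonneg hb.le (Complex.normSq_nonneg _))
      linarith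
    · unfold lchi
      field_simp
      ring
  unfold lg
  rw [h1]
  unfold lchi
  field_simp
  ring

theorem one_sub_re_pos (ha : 0 < a) (ha1 : a < 1) {z : ℂ} (hz : ‖z‖ ≤ 1) :
    0 < (1 - a * z).re := by
  rw [one_sub_re]
  have h6 : z.re ≤ 1 := (Complex.re_le_norm z).trans hz
  nlinarith

theorem lg_lchi' (ha : 0 < a) (ha1 : a < 1) (he : 0 ≤ e) (hea : e < (1 - a) ^ 2) {z : ℂ}
    (hz : ‖z‖ ≤ 1) : lg a e (lchi a e z) = z :=
  lg_lchi ha he (one_sub_re_pos ha ha1 hz) (lchi_re ha ha1 he hea hz)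

end

end Pool.Agent.Lib.MP_c3d375_an.Neg.H99
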